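import Pool.Agent.Lib.TWM0.G
import Pool.Agent.Lib.TWCY.Core

/-!
# TANK W, the critical elements of the top floor in row B, part A: the general lemma

`z` of transcendental type over `F`, radius `0`; `d` a derivation of `F` with values in `Ω`.

* `Stt d r`: `d (r θ)` is strictly small for `θ ∈ F` near `z`;
* `Apx d ds`: `d` is approximated by `F`-valued derivations, up to small multiples of the `ds i`;
* `lim_jets`: the jets of a limit of `F`;
* `jets_const`: **the values `d` of the proper jets of a critical element are constants**, and they are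
  `0` if the order is not a power of `p`; `jets_zero`: all are `0` if the element has strict values.
-/

set_option autoImplicit false

open Polynomial Finset

namespace Pool.Agent.TWM1

open Pool.Agent.H15JM (RVal)
open Pool.Agent.LU1 (VPos)
open Pool.Agent.D2 (Ctx0)
open Pool.Agent.D2P (clI mem_clI)
open Pool.Agent.TWM
open Pool.Agent.TWLM (HSd Oi exists_ge_of_gt)
open Pool.Agent.TWII (LP PG Nr)
open Pool.Agent.TWCY (Drv)
open Pool.Agent.TWM0

universe u

variable {k Ω : Type u} [Field k] [Field Ω] [Algebra k Ω] {v : RVal Ω}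
  {F : IntermediateField k Ω} {z : Ω} {f : Polynomial Ω} {d : Ω → Ω}

/-- The values of `d` are strictly small near `z`. -/
def Stt (v : RVal Ω) (F : IntermediateField k Ω) (z : Ω) (d : Ω → Ω) (r : Polynomial Ω) : Prop :=
  ∃ μ : ℝ, 0 < μ ∧ Nr v F 0 z fun θ => v.Ge μ (d (r.eval θ))

/-- The values of `d` are `c`, up to strictly small elements. -/
def Con (v : RVal Ω) (F : IntermediateField k Ω) (z : Ω) (d : Ω → Ω) (r : Polynomial Ω) (c : Ω) :
    Prop :=
  ∃ μ : ℝ, 0 < μ ∧ Nr v F 0 z fun θ => v.Ge μ (d (r.eval θ) - c)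

/-- `d` is approximated by derivations of `F`. -/
def Apx (v : RVal Ω) (F : IntermediateField k Ω) {ι : Type} [Fintype ι] (d : Ω → Ω)
    (ds : ι → Ω → Ω) : Prop :=
  ∀ ε : ℝ, 0 < ε → ∃ (E : Ω → Ω) (c : ι → Ω), Der F E ∧ (∀ i, v.Ge (-ε) (c i)) ∧
    ∀ x ∈ F, E x = d x - ∑ i, c i * ds i x

theorem Con.stt {r : Polynomial Ω} (h : Con v F z d r 0) : Stt v F z d r := by
  obtain ⟨μ, hμ, h1⟩ := h
  exact ⟨μ, hμ, h1.mono fun θ _ h2 => by rwa [sub_zero] at h2⟩

theorem Stt.con {r : Polynomial Ω} (h : Stt v F z d r) : Con v F z d r 0 := by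
  obtain ⟨μ, hμ, h1⟩ := h
  exact ⟨μ, hμ, h1.mono fun θ _ h2 => by rwa [sub_zero]⟩

/-- **The jets of a limit.** -/
theorem lim_jets [IsAlgClosed Ω] (p : ℕ) [hp : Fact p.Prime] [CharP Ω p] (hk : Ctx0 k v)
    (hz : TL v F z 0) {G : Polynomial Ω} (hG : G ∈ PI F) (hl : Lim v F 0 (G.eval z)) :
    ∃ κ : ℕ → k, (∀ l, (∀ i, l ≠ p ^ i) → κ l = 0) ∧
      ∀ l, l ≠ 0 → Gt v 0 ((hasseDeriv l G).eval z - algebraMap k Ω (κ l)) := by
  classical
  obtain ⟨f₀, hf₀, e, c, hc, h1⟩ := hz.germ p (M := {m | m ∈ F}) (fun a ha _ =>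
    ⟨a, ha, ha, by rw [sub_self]; exact Gt.zero⟩) (eval_mem_cadj hG) hl
  have hcF : ∀ i, c i ∈ F := fun i => by
    rcases hc i with h2 | h2
    · rw [h2]
      exact zero_mem F
    · exact h2.1
  have hres : ∀ i, ∃ κ : k, Gt v 0 (c i - algebraMap k Ω κ) := fun i => by
    rcases hc i with h2 | ⟨-, -, h2, h3⟩
    · exact ⟨0, by rw [h2, map_zero, sub_zero]; exact Gt.zero⟩
    · rw [mul_zero, add_zero] at h3
      obtain ⟨κ, -, h4⟩ := hk.res _ h2 h3
      exact ⟨κ, h4⟩
  choose κ hκ using hres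
  set Q : Polynomial Ω := TWM.addP p e c with hQ
  have hQm : Q ∈ PI F := TWM.addP_mem hcF
  set r : Polynomial Ω := G - (C f₀ + Q) with hr
  have hrm : r ∈ PI F := sub_mem hG (add_mem (C_mem_PI hf₀) hQm)
  have hr0 : v.Ge 0 (r.eval z) := by
    rw [hr, eval_sub, eval_add, eval_C, hQ, TWM.addP_eval]
    exact h1.ge
  refine ⟨fun l => ∑ i ∈ range e, if l = p ^ i then κ i else 0, fun l hl1 => ?_, fun l hl0 => ?_⟩
  · exact sum_eq_zero fun i _ => if_neg (hl1 i)
  · have h2 := TWII.TL.jet_gt hz hrm hr0 (l := l) (by omega)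
    rw [mul_zero, sub_zero] at h2
    have h3 : (taylor z Q).coeff l = ∑ i ∈ range e, if l = p ^ i then c i else 0 :=
      TWM.coeff_taylor_addP p e c z (Nat.pos_of_ne_zero hl0)
    have e1 : (hasseDeriv l G).eval z - algebraMap k Ω (∑ i ∈ range e, if l = p ^ i then κ i else 0) =
        (taylor z r).coeff l +
          ∑ i ∈ range e, if l = p ^ i then c i - algebraMap k Ω (κ i) else 0 := by
      have e2 : (taylor z r).coeff l = (hasseDeriv l G).eval z - (taylor z Q).coeff l := by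
        rw [hr, map_sub, map_add, coeff_sub, coeff_add, taylor_C, coeff_C, if_neg hl0, zero_add,
          taylor_coeff]
      have e3 : ∑ i ∈ range e, (if l = p ^ i then c i - algebraMap k Ω (κ i) else 0) =
          (∑ i ∈ range e, if l = p ^ i then c i else 0) -
            algebraMap k Ω (∑ i ∈ range e, if l = p ^ i then κ i else 0) := by
        rw [map_sum, ← sum_sub_distrib]
        refine sum_congr rfl fun i _ => ?_
        split_ifs
        · rfl
        · rw [map_zero, sub_zero]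
      rw [e2, e3, h3]
      ring
    rw [e1]
    refine h2.add ?_
    refine Gt.sum _ _ fun i _ => ?_
    split_ifs
    · exact hκ i
    · exact Gt.zero

/-- The limits of `F`. -/
theorem lim_of_jets [IsAlgClosed Ω] (hz : TL v F z 0) {G : Polynomial Ω} (hG : G ∈ PI F)
    (h : ∀ l, l ≠ 0 → v.Ge 0 ((hasseDeriv l G).eval z)) : Lim v F 0 (G.eval z) := by
  intro ε hε
  set N := G.natDegree with hN
  obtain ⟨θ, hθ, h1⟩ := hz.lim (ε / (N + 1)) (by positivity)
  refine ⟨G.eval θ, eval_mem hG hθ, ?_⟩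
  have e1 : G.eval θ = ∑ l ∈ range (N + 1), (hasseDeriv l G).eval z * (θ - z) ^ l := by
    have e2 : G.eval θ = (taylor z G).eval (θ - z) := by
      rw [taylor_eval, sub_add_cancel]
    rw [e2, eval_eq_sum_range' (n := N + 1) (by rw [natDegree_taylor]; omega)]
    exact sum_congr rfl fun l _ => by rw [taylor_coeff]
  have e3 : G.eval z - G.eval θ = -∑ l ∈ range N, (hasseDeriv (l + 1) G).eval z * (θ - z) ^ (l + 1) := by
    rw [e1, sum_range_succ', hasseDeriv_zero', pow_zero, mul_one]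
    ring
  rw [e3]
  refine RVal.Ge.neg (RVal.Ge.sum _ _ fun l hl => ?_)
  have h2 : v.Ge (0 - ε / (N + 1)) (θ - z) := ge_sub_comm h1
  refine ((h (l + 1) (by omega)).mul (ge_pow h2 (l + 1))).mono ?_
  have h3 : ((l + 1 : ℕ) : ℝ) ≤ N + 1 := by
    have := mem_range.1 hl
    have h4 : l + 1 ≤ N + 1 := by omega
    exact_mod_cast h4
  have h5 : ((l + 1 : ℕ) : ℝ) * (ε / (N + 1)) ≤ ε := by
    rw [mul_div_assoc', div_le_iff₀ (by positivity)]
    nlinarith
  linarith

section gl

variable [IsAlgClosed Ω] {p : ℕ} [hp : Fact p.Prime] [CharP Ω p] {ι : Type} [Fintype ι]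
  {ds : ι → Ω → Ω}

omit [IsAlgClosed Ω] [CharP Ω p] in
theorem drv_pow_p [CharP Ω p] (hd : Drv v F d) {y : Ω} (hy : y ∈ F) : d (y ^ p) = 0 := by
  have h1 : ∀ n : ℕ, d (y ^ (n + 1)) = ((n + 1 : ℕ) : Ω) * y ^ n * d y := by
    intro n
    induction n with
    | zero => rw [zero_add, pow_one, Nat.cast_one, pow_zero, one_mul, one_mul]
    | succ n ih =>
      rw [pow_succ, hd.mul _ (pow_mem hy _) _ hy, ih]
      push_cast
      ring
  obtain ⟨m, hm⟩ : ∃ m, p = m + 1 := ⟨p - 1, by have := hp.out.pos; omega⟩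
  have h2 := h1 m
  rw [← hm, CharP.cast_eq_zero, zero_mul, zero_mul] at h2
  exact h2

omit hp [CharP Ω p] [IsAlgClosed Ω] in
theorem drv_sub (hd : Drv v F d) {y y' : Ω} (hy : y ∈ F) (hy' : y' ∈ F) :
    d (y - y') = d y - d y' := by
  have h1 := hd.add (y - y') (sub_mem hy hy') y' hy'
  rw [sub_add_cancel] at h1
  rw [h1]
  ring

/-- The values of a critical element. -/
theorem lp_near (hz : TL v F z 0) (hd : Drv v F d) (hf : f ∈ PI F)
    (hlp : LP p v (cadj v F z) 0 (f.eval z)) {δ : ℝ} (hδ : 0 < δ) :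
    Nr v F 0 z fun θ => v.Ge (-δ) (d (f.eval θ)) := by
  obtain ⟨G, hG, h1⟩ := LP.poly p hz hlp hδ
  refine (near_ge hz (sub_mem hf (pow_mem hG p)) h1).mono fun θ hθ h2 => ?_
  have hfe := eval_mem hf hθ
  have hGe := eval_mem hG hθ
  rw [eval_sub, eval_pow] at h2
  have h3 := hd.norm _ (sub_mem hfe (pow_mem hGe p)) _ h2
  rw [drv_sub hd hfe (pow_mem hGe p), drv_pow_p hd hGe, sub_zero] at h3
  exact h3.mono (by linarith)

/-- The proper jets of a critical element have bounded values. -/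
theorem jet_near (hz : TL v F z 0) (hd : Drv v F d) (hf : f ∈ PI F)
    (hlp : LP p v (cadj v F z) 0 (f.eval z)) {l : ℕ} (hl : l ≠ 0) {δ : ℝ} (hδ : 0 < δ) :
    Nr v F 0 z fun θ => v.Ge (-δ) (d ((hasseDeriv l f).eval θ)) := by
  have hfl : hasseDeriv l f ∈ PI F := hasse_mem_PI hf l
  by_cases hpl : p ∣ l
  · refine lp_near (p := p) hz hd hfl ?_ hδ
    have h1 := LP.jet p hz hf hlp hpl
    rwa [taylor_coeff, mul_zero, sub_zero] at h1
  · have h1 : v.Ge 0 ((hasseDeriv l f).eval z) := by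
      rcases eq_or_ne l 1 with rfl | h2
      · have h3 := crit_dz p hz hf hlp
        rwa [sub_zero, ← hasseDeriv_one] at h3
      · have h3 := LP.jet_prime_gt p hz hf hlp hpl (by omega)
        rw [taylor_coeff, mul_zero, sub_zero] at h3
        exact h3.ge
    refine (near_ge hz hfl h1).mono fun θ hθ h2 => ?_
    exact (hd.norm _ (eval_mem hfl hθ) _ h2).mono (by linarith)

end gl

end Pool.Agent.TWM1
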