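import Pool.Agent.Lib.TWM1.A

/-!
# TANK W, the critical elements of the top floor in row B, part B: the values of the jets

* `jets_const`: the values `d` of the proper jets of a critical element are constants, `0` if the
  order is not a power of `p`;
* `jets_zero`: they are strict if the element has a strict derivative in `z` and strict `ds i`.
-/

set_option autoImplicit false

open Polynomial Finset

namespace Pool.Agent.TWM1

open Pool.Agent.H15JM (RVal)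
open Pool.Agent.LU1 (VPos)
open Pool.Agent.D2 (Ctx0)
open Pool.Agent.TWM
open Pool.Agent.TWLM (HSd Oi exists_ge_of_gt)
open Pool.Agent.TWII (LP PG Nr)
open Pool.Agent.TWCY (Drv)
open Pool.Agent.TWM0

universe u

variable {k Ω : Type u} [Field k] [Field Ω] [Algebra k Ω] {v : RVal Ω}
  {F : IntermediateField k Ω} {z : Ω} {f : Polynomial Ω} {d : Ω → Ω} [IsAlgClosed Ω] {p : ℕ}
  [hp : Fact p.Prime] [CharP Ω p] {ι : Type} [Fintype ι] {ds : ι → Ω → Ω}

omit [IsAlgClosed Ω] hp [CharP Ω p] in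
/-- The norm of the approximation. -/
theorem apx_norm {E : Ω → Ω} {c : ι → Ω} {ε : ℝ} (hd : Drv v F d) (hds : ∀ i, Drv v F (ds i))
    (hc : ∀ i, v.Ge (-ε) (c i)) (hE : ∀ x ∈ F, E x = d x - ∑ i, c i * ds i x) {x : Ω} (hx : x ∈ F)
    (hε : 0 < ε) {t : ℝ} (h : v.Ge t x) : v.Ge (t - ε) (E x) := by
  rw [hE x hx]
  refine ((hd.norm x hx t h).mono (by linarith)).sub (RVal.Ge.sum _ _ fun i _ => ?_)
  exact ((hc i).mul ((hds i).norm x hx t h)).mono (by linarith)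

omit hp [CharP Ω p] in
/-- A uniform margin for the jets. -/
theorem exists_margin (hz : TL v F z 0) (hf : f ∈ PI F)
    (hs : ∀ l, l ≠ 0 → ∀ i, Stt v F z (ds i) (hasseDeriv l f))
    (h' : ∀ l, l ≠ 0 → Gt v 0 ((derivative (hasseDeriv l f)).eval z)) (hd0 : ∀ i, ds i 0 = 0) :
    ∃ μ : ℝ, 0 < μ ∧ ∀ l, l ≠ 0 →
      (∀ i, Nr v F 0 z fun θ => v.Ge μ (ds i ((hasseDeriv l f).eval θ))) ∧
      v.Ge μ ((derivative (hasseDeriv l f)).eval z) := by
  classical
  set N := f.natDegree with hN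
  have h1 : ∀ j : Fin N, ∃ μ : ℝ, 0 < μ ∧
      (∀ i, Nr v F 0 z fun θ => v.Ge μ (ds i ((hasseDeriv (j.1 + 1) f).eval θ))) ∧
      v.Ge μ ((derivative (hasseDeriv (j.1 + 1) f)).eval z) := by
    intro j
    choose μ hμ hm using fun i => hs (j.1 + 1) (by omega) i
    obtain ⟨μ₁, hμ₁, h2⟩ := exists_pos_le μ hμ
    obtain ⟨μ₂, hμ₂, h3⟩ := exists_ge_of_gt (h' (j.1 + 1) (by omega))
    refine ⟨min μ₁ μ₂, lt_min hμ₁ hμ₂, fun i => (hm i).mono fun θ _ h4 => ?_, h3.mono ?_⟩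
    · exact h4.mono ((min_le_left _ _).trans (h2 i))
    · exact (min_le_right _ _).trans (by linarith)
  choose μ hμ hm hm' using h1
  obtain ⟨μ₀, hμ₀, h2⟩ := exists_pos_le μ hμ
  refine ⟨μ₀, hμ₀, fun l hl => ?_⟩
  by_cases hlN : l ≤ N
  · obtain ⟨j, rfl⟩ : ∃ j, l = j + 1 := ⟨l - 1, by omega⟩
    have hj : j < N := by omega
    refine ⟨fun i => (hm ⟨j, hj⟩ i).mono fun θ _ h3 => h3.mono (h2 ⟨j, hj⟩), ?_⟩
    exact (hm' ⟨j, hj⟩).mono (h2 ⟨j, hj⟩)
  · have h3 : hasseDeriv l f = 0 := hasseDeriv_eq_zero_of_lt_natDegree f l (by omega)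
    rw [h3]
    refine ⟨fun i => Nr.of_forall fun θ _ => ?_, ?_⟩
    · rw [eval_zero, hd0]
      exact RVal.Ge.zero
    · rw [derivative_zero, eval_zero]
      exact RVal.Ge.zero

omit [IsAlgClosed Ω] hp [CharP Ω p] in
theorem drv_zero (hd : Drv v F d) : d 0 = 0 := by
  have h1 := hd.add 0 (zero_mem F) 0 (zero_mem F)
  rw [add_zero] at h1
  exact left_eq_add.1 h1

/-- **The values of the jets are constants.** -/
theorem jets_const (hk : Ctx0 k v) (hz : TL v F z 0) (hd : Drv v F d) (hds : ∀ i, Drv v F (ds i))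
    (hap : Apx v F d ds) (hf : f ∈ PI F) (hlp : LP p v (cadj v F z) 0 (f.eval z))
    (hs : ∀ l, l ≠ 0 → ∀ i, Stt v F z (ds i) (hasseDeriv l f)) :
    ∃ κ : ℕ → k, (∀ l, (∀ i, l ≠ p ^ i) → κ l = 0) ∧
      ∀ l, l ≠ 0 → Con v F z d (hasseDeriv l f) (algebraMap k Ω (κ l)) := by
  have h' : ∀ l, l ≠ 0 → Gt v 0 ((derivative (hasseDeriv l f)).eval z) := fun l hl => by
    have h1 := jets_dz hz hf (crit_dz p hz hf hlp) hl
    exact h1.mono (by simp)
  obtain ⟨μ, hμ, hm⟩ := exists_margin hz hf hs h' fun i => drv_zero (hds i)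
  obtain ⟨E, c, hE, hc, hEe⟩ := hap (μ / 4) (by linarith)
  obtain ⟨θ₀, hθ₀, h0⟩ := hz.lim (μ / 4) (by linarith)
  rw [zero_sub] at h0
  have hEn : ∀ {x : Ω}, x ∈ F → ∀ {t : ℝ}, v.Ge t x → v.Ge (t - μ / 4) (E x) := fun {x} hx {t} ht =>
    apx_norm hd hds hc hEe hx (by linarith) ht
  set G : Polynomial Ω := DH E (E θ₀) f with hG
  have hGm : G ∈ PI F := DH_mem hE (hE.mem _ hθ₀) hf
  -- the values of `E` at `θ` near `z`
  have hθE : Nr v F 0 z fun θ => v.Ge (-(μ / 2)) (E θ - E θ₀) := by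
    refine (Nr.near (v := v) (F := F) (ρ := 0) (u := z) (ε := μ / 4) (by linarith)).mono
      fun θ hθ h1 => ?_
    rw [← hE.sub hθ hθ₀]
    have e : θ - θ₀ = (z - θ₀) - (z - θ) := by ring
    refine (hEn (sub_mem hθ hθ₀) (t := -(μ / 4)) ?_).mono (by linarith)
    rw [e]
    exact h0.sub (h1.mono (by linarith))
  have hjet : ∀ l, hasseDeriv l G = DH E (E θ₀) (hasseDeriv l f) := fun l => DH_hasse hE hf l
  -- the proper jets of `G`
  have hG0 : ∀ l, l ≠ 0 → v.Ge 0 ((hasseDeriv l G).eval z) := by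
    intro l hl
    have h5 : ∀ δ : ℝ, 0 < δ → v.Ge (-δ) ((hasseDeriv l G).eval z) := by
      intro δ hδ
      rw [hjet]
      refine DH_ge_of hz hE (hE.mem _ hθ₀) (hasse_mem_PI hf l) ?_ ?_
      · have h6 : Nr v F 0 z fun θ => ∀ i ∈ (univ : Finset ι),
            v.Ge μ (ds i ((hasseDeriv l f).eval θ)) := Nr.all _ fun i _ => (hm l hl).1 i
        refine ((jet_near (p := p) hz hd hf hlp hl hδ).and h6).mono fun θ hθ h7 => ?_
        rw [hEe _ (eval_mem (hasse_mem_PI hf l) hθ)]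
        refine h7.1.sub (RVal.Ge.sum _ _ fun i _ => ?_)
        exact ((hc i).mul (h7.2 i (mem_univ i))).mono (by linarith)
      · refine ((near_ge hz (derivative_mem (hasse_mem_PI hf l)) (hm l hl).2).and hθE).mono
          fun θ _ h7 => ?_
        exact (h7.1.mul h7.2).mono (by linarith)
    intro h6
    refine le_of_forall_pos_le_add fun δ hδ => ?_
    linarith [h5 δ hδ h6]
  obtain ⟨κ, hκ, h1⟩ := lim_jets p hk hz hGm (lim_of_jets hz hGm hG0)
  refine ⟨κ, hκ, fun l hl => ?_⟩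
  have hfl : hasseDeriv l f ∈ PI F := hasse_mem_PI hf l
  obtain ⟨μ₁, hμ₁, h2⟩ := exists_ge_of_gt (h1 l hl)
  rw [zero_add] at h2
  have h3 : v.Ge μ₁ ((hasseDeriv l G - C (algebraMap k Ω (κ l))).eval z) := by
    rwa [eval_sub, eval_C]
  refine ⟨min μ₁ (μ / 4), lt_min hμ₁ (by linarith), ?_⟩
  have h4 : Nr v F 0 z fun θ => ∀ i ∈ (univ : Finset ι),
      v.Ge μ (ds i ((hasseDeriv l f).eval θ)) := Nr.all _ fun i _ => (hm l hl).1 i
  refine (((near_ge hz (sub_mem (hasse_mem_PI hGm l) (C_mem_PI (F.algebraMap_mem _))) h3).and h4).and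
    ((near_ge hz (derivative_mem hfl) (hm l hl).2).and hθE)).mono fun θ hθ h5 => ?_
  obtain ⟨⟨h5, h6⟩, h7, h8⟩ := h5
  rw [eval_sub, eval_C, hjet, DH_eval hE hfl hθ, hEe _ (eval_mem hfl hθ)] at h5
  have e : d ((hasseDeriv l f).eval θ) - algebraMap k Ω (κ l) =
      (d ((hasseDeriv l f).eval θ) - ∑ i, c i * ds i ((hasseDeriv l f).eval θ) -
        (derivative (hasseDeriv l f)).eval θ * (E θ - E θ₀) - algebraMap k Ω (κ l)) +
      ∑ i, c i * ds i ((hasseDeriv l f).eval θ) +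
        (derivative (hasseDeriv l f)).eval θ * (E θ - E θ₀) := by ring
  rw [e]
  refine ((h5.mono (min_le_left _ _)).add ((RVal.Ge.sum _ _ fun i _ => ?_).mono
    (min_le_right _ _))).add ((h7.mul h8).mono ((min_le_right _ _).trans (by linarith)))
  exact ((hc i).mul (h6 i (mem_univ i))).mono (by linarith)

/-- **The values of the jets are strict.** -/
theorem jets_zero (hz : TL v F z 0) (hd : Drv v F d) (hds : ∀ i, Drv v F (ds i))
    (hap : Apx v F d ds) (hf : f ∈ PI F) (hlp : LP p v (cadj v F z) 0 (f.eval z))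
    (hf' : Gt v 0 ((derivative f).eval z)) (hs0 : ∀ i, Stt v F z (ds i) f)
    (hs : ∀ l, l ≠ 0 → ∀ i, Stt v F z (ds i) (hasseDeriv l f)) (l : ℕ) (hl : l ≠ 0) :
    Stt v F z d (hasseDeriv l f) := by
  classical
  have h' : ∀ l, l ≠ 0 → Gt v 0 ((derivative (hasseDeriv l f)).eval z) := fun l hl => by
    have h1 := jets_dz hz hf (crit_dz p hz hf hlp) hl
    exact h1.mono (by simp)
  obtain ⟨μ₁, hμ₁, hm⟩ := exists_margin hz hf hs h' fun i => drv_zero (hds i)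
  obtain ⟨μ₂, hμ₂, hm2⟩ := exists_ge_of_gt hf'
  rw [zero_add] at hm2
  choose μ₃ hμ₃ hm3 using hs0
  obtain ⟨μ₄, hμ₄, hm4⟩ := exists_pos_le μ₃ hμ₃
  obtain ⟨μ, hμ, hμ1, hμ2, hμ4⟩ : ∃ μ : ℝ, 0 < μ ∧ μ ≤ μ₁ ∧ μ ≤ μ₂ ∧ μ ≤ μ₄ :=
    ⟨min μ₁ (min μ₂ μ₄), lt_min hμ₁ (lt_min hμ₂ hμ₄), min_le_left _ _,
      (min_le_right _ _).trans (min_le_left _ _), (min_le_right _ _).trans (min_le_right _ _)⟩
  obtain ⟨E, c, hE, hc, hEe⟩ := hap (μ / 4) (by linarith)
  obtain ⟨θ₀, hθ₀, h0⟩ := hz.lim (μ / 4) (by linarith)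
  rw [zero_sub] at h0
  have hEn : ∀ {x : Ω}, x ∈ F → ∀ {t : ℝ}, v.Ge t x → v.Ge (t - μ / 4) (E x) := fun {x} hx {t} ht =>
    apx_norm hd hds hc hEe hx (by linarith) ht
  have hθE : Nr v F 0 z fun θ => v.Ge (-(μ / 2)) (E θ - E θ₀) := by
    refine (Nr.near (v := v) (F := F) (ρ := 0) (u := z) (ε := μ / 4) (by linarith)).mono
      fun θ hθ h1 => ?_
    rw [← hE.sub hθ hθ₀]
    have e : θ - θ₀ = (z - θ₀) - (z - θ) := by ring
    refine (hEn (sub_mem hθ hθ₀) (t := -(μ / 4)) ?_).mono (by linarith)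
    rw [e]
    exact h0.sub (h1.mono (by linarith))
  have h4 : v.Ge 0 ((DH E (E θ₀) f).eval z) := by
    have h5 : ∀ δ : ℝ, 0 < δ → v.Ge (-δ) ((DH E (E θ₀) f).eval z) := by
      intro δ hδ
      refine DH_ge_of hz hE (hE.mem _ hθ₀) hf ?_ ?_
      · have h6 : Nr v F 0 z fun θ => ∀ i ∈ (univ : Finset ι), v.Ge (μ₃ i) (ds i (f.eval θ)) :=
          Nr.all _ fun i _ => hm3 i
        refine ((lp_near (p := p) hz hd hf hlp hδ).and h6).mono fun θ hθ h7 => ?_
        rw [hEe _ (eval_mem hf hθ)]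
        refine h7.1.sub (RVal.Ge.sum _ _ fun i _ => ?_)
        exact ((hc i).mul (h7.2 i (mem_univ i))).mono (by linarith [hm4 i])
      · refine ((near_ge hz (derivative_mem hf) hm2).and hθE).mono fun θ _ h7 => ?_
        exact (h7.1.mul h7.2).mono (by linarith)
    intro h6
    refine le_of_forall_pos_le_add fun δ hδ => ?_
    linarith [h5 δ hδ h6]
  have hfl : hasseDeriv l f ∈ PI F := hasse_mem_PI hf l
  have h5 := DH_jet_gt hz hE (hE.mem _ hθ₀) hf h4 hl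
  rw [mul_zero, sub_zero] at h5
  obtain ⟨μ₅, hμ₅, h6⟩ := exists_ge_of_gt h5
  rw [zero_add] at h6
  refine ⟨min μ₅ (μ / 4), lt_min hμ₅ (by linarith), ?_⟩
  have h7 : Nr v F 0 z fun θ => ∀ i ∈ (univ : Finset ι),
      v.Ge μ₁ (ds i ((hasseDeriv l f).eval θ)) := Nr.all _ fun i _ => (hm l hl).1 i
  refine (((near_ge hz (DH_mem hE (hE.mem _ hθ₀) hfl) h6).and h7).and
    ((near_ge hz (derivative_mem hfl) (hm l hl).2).and hθE)).mono fun θ hθ h8 => ?_
  obtain ⟨⟨h8, h9⟩, h10, h11⟩ := h8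
  rw [DH_eval hE hfl hθ, hEe _ (eval_mem hfl hθ)] at h8
  have e : d ((hasseDeriv l f).eval θ) =
      (d ((hasseDeriv l f).eval θ) - ∑ i, c i * ds i ((hasseDeriv l f).eval θ) -
        (derivative (hasseDeriv l f)).eval θ * (E θ - E θ₀)) +
      ∑ i, c i * ds i ((hasseDeriv l f).eval θ) +
        (derivative (hasseDeriv l f)).eval θ * (E θ - E θ₀) := by ring
  rw [e]
  refine ((h8.mono (min_le_left _ _)).add ((RVal.Ge.sum _ _ fun i _ => ?_).mono
    (min_le_right _ _))).add ((h10.mul h11).mono ((min_le_right _ _).trans (by linarith)))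
  exact ((hc i).mul (h9 i (mem_univ i))).mono (by linarith)

end Pool.Agent.TWM1
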