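import Pool.Agent.Lib.TWM1.C
import Pool.Agent.Lib.TWM0.H
import Pool.Agent.Lib.TWRB.R12v
import Pool.Agent.Lib.TWRB.R12A
import Pool.Agent.Lib.TWRB.R12C
import Pool.Agent.Lib.TWCY.DerX

/-!
# TANK W, the critical elements of the top floor in row B: the situation `Bx` from `HB` and `BaseD`
-/

set_option autoImplicit false

open Polynomial Finset

namespace Pool.Agent.TWM1

open Pool.Agent.H15JM (RVal)
open Pool.Agent.D2 (Ctx0)
open Pool.Agent.D2P (clI mem_clI)
open Pool.Agent.TWM
open Pool.Agent.TWII (LP PG)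
open Pool.Agent.TWCY (Drv BaseD)
open Pool.Agent.TWM0
open Pool.Agent.TWRB (HB DrvB)

universe u

variable {k Ω : Type u} [Field k] [Field Ω] [Algebra k Ω] {v : RVal Ω}

/-- A derivation of norm `≤ ε` of `A⟨u⟩` with values in `M` at `A` and `u` has its values in `M`. -/
theorem mem_floor [IsAlgClosed Ω] {A N M : IntermediateField k Ω} {u : Ω} (hu : TL v A u 0)
    (hN : N = cadj v A u) (hM : Cld v M) (hNM : N ≤ M) {E : Ω → Ω} {ε : ℝ}
    (hadd : ∀ y ∈ N, ∀ y' ∈ N, E (y + y') = E y + E y')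
    (hmul : ∀ y ∈ N, ∀ y' ∈ N, E (y * y') = y * E y' + y' * E y)
    (hnorm : ∀ y ∈ N, ∀ t : ℝ, v.Ge t y → v.Ge (t - ε) (E y)) (hA : ∀ y ∈ A, E y ∈ M)
    (huM : E u ∈ M) : ∀ y ∈ N, E y ∈ M := by
  have hAN : A ≤ N := by
    rw [hN]
    exact le_cadj _ _ _
  have huN : u ∈ N := by
    rw [hN]
    exact self_mem_cadj _ _ _
  have h0 : E 0 = 0 := by
    have h1 := hadd 0 (zero_mem N) 0 (zero_mem N)
    rw [add_zero] at h1
    exact left_eq_add.1 h1
  have h1' : E 1 = 0 := by
    have h1 := hmul 1 (one_mem N) 1 (one_mem N)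
    rw [one_mul, one_mul] at h1
    exact left_eq_add.1 h1
  have hneg : ∀ y ∈ N, E (-y) = -E y := by
    intro y hy
    have h1 := hadd y hy (-y) (neg_mem hy)
    rw [add_neg_cancel, h0] at h1
    exact (neg_eq_of_add_eq_zero_right h1.symm).symm
  let S : Subring Ω :=
    { carrier := {y | y ∈ N ∧ E y ∈ M}
      zero_mem' := ⟨zero_mem N, by rw [h0]; exact zero_mem M⟩
      one_mem' := ⟨one_mem N, by rw [h1']; exact zero_mem M⟩
      add_mem' := fun {x y} hx hy => ⟨add_mem hx.1 hy.1, by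
        rw [hadd x hx.1 y hy.1]
        exact add_mem hx.2 hy.2⟩
      neg_mem' := fun {x} hx => ⟨neg_mem hx.1, by
        rw [hneg x hx.1]
        exact neg_mem hx.2⟩
      mul_mem' := fun {x y} hx hy => ⟨mul_mem hx.1 hy.1, by
        rw [hmul x hx.1 y hy.1]
        exact add_mem (mul_mem (hNM hx.1) hy.2) (mul_mem (hNM hy.1) hx.2)⟩ }
  intro y hy
  refine hM (mem_clI.2 fun b => ?_)
  have hy' : y ∈ cadj v A u := by
    rw [← hN]
    exact hy
  obtain ⟨q, hq, h2⟩ := hu.dense hy' (b + ε)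
  have hqS : ∀ i, q.coeff i ∈ S := fun i => ⟨hAN (hq i), hA _ (hq i)⟩
  have huS : u ∈ S := ⟨huN, huM⟩
  have h3 : q.eval u ∈ S := by
    rw [eval_eq_sum_range]
    exact sum_mem fun i _ => mul_mem (hqS i) (pow_mem huS i)
  refine ⟨_, h3.2, ?_⟩
  have e : E y - E (q.eval u) = E (y - q.eval u) := by
    rw [sub_eq_add_neg, sub_eq_add_neg, hadd y hy _ (neg_mem h3.1), hneg _ h3.1]
  rw [e]
  exact (hnorm _ (sub_mem hy h3.1) _ h2).mono (by linarith)

/-- The sum `d - c d'` is additive and a derivation. -/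
theorem sub_smul_add {N : IntermediateField k Ω} {d d' : Ω → Ω} {c : Ω}
    (hd : ∀ y ∈ N, ∀ y' ∈ N, d (y + y') = d y + d y')
    (hd' : ∀ y ∈ N, ∀ y' ∈ N, d' (y + y') = d' y + d' y') :
    ∀ y ∈ N, ∀ y' ∈ N, (fun y => d y - c * d' y) (y + y') =
      (fun y => d y - c * d' y) y + (fun y => d y - c * d' y) y' := by
  intro y hy y' hy'
  simp only
  rw [hd y hy y' hy', hd' y hy y' hy']
  ring

theorem sub_smul_mul {N : IntermediateField k Ω} {d d' : Ω → Ω} {c : Ω}
    (hd : ∀ y ∈ N, ∀ y' ∈ N, d (y * y') = y * d y' + y' * d y)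
    (hd' : ∀ y ∈ N, ∀ y' ∈ N, d' (y * y') = y * d' y' + y' * d' y) :
    ∀ y ∈ N, ∀ y' ∈ N, (fun y => d y - c * d' y) (y * y') =
      y * (fun y => d y - c * d' y) y' + y' * (fun y => d y - c * d' y) y := by
  intro y hy y' hy'
  simp only
  rw [hd y hy y' hy', hd' y hy y' hy']
  ring

variable {p : ℕ} {L : ℕ → IntermediateField k Ω} {W B F K : IntermediateField k Ω}
  {w : Fin 2 → Ω} {x z a : Ω} {D₀ : Ω → Ω}

/-- **The situation of part C.** -/
theorem exists_bx [hp : Fact p.Prime] [CharP Ω p] [IsAlgClosed k] [IsAlgClosed Ω]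
    (h : HB p v L W B F K w x z a) (hB : BaseD p v W x D₀) :
    ∃ (D : Ω → Ω) (dd : Fin 2 → Ω → Ω), DrvB v W B F w D dd ∧
      Bx p v B F z x D (dd 0) (dd 1) := by
  obtain ⟨D, dd, hDD, hDW⟩ := TWRB.rowR12A h hB
  have hWF := h.W_le
  have hBF : B ≤ F := by
    rw [h.F_eq]
    exact le_cadj _ _ _
  have hWB : W ≤ B := by
    rw [h.B_eq]
    exact le_cadj _ _ _
  have hw0 : w 0 ∈ B := by
    rw [h.B_eq]
    exact self_mem_cadj _ _ _
  have hw1 : w 1 ∈ F := by
    rw [h.F_eq]
    exact self_mem_cadj _ _ _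
  have hBc : Cld v B := by
    rw [h.B_eq]
    exact cld_cadj _ _ _
  have hFc : Cld v F := by
    rw [h.F_eq]
    exact cld_cadj _ _ _
  have d1B : ∀ y ∈ B, dd 1 y = 0 := fun y hy => hDD.zero_B h.tw h.B_eq hBF hy
  have h0 := hDD.drvi 0
  have h1 := hDD.drvi 1
  -- `dd 0` maps `B` to `B`
  have d0B : ∀ y ∈ B, dd 0 y ∈ B := mem_floor h.tw h.B_eq hBc le_rfl (ε := 0)
    (fun y hy y' hy' => h0.add y (hBF hy) y' (hBF hy'))
    (fun y hy y' hy' => h0.mul y (hBF hy) y' (hBF hy'))
    (fun y hy t ht => by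
      rw [sub_zero]
      exact h0.norm y (hBF hy) t ht)
    (fun y hy => by
      rw [hDD.ddW 0 y hy]
      exact zero_mem B)
    (by
      rw [hDD.dd00]
      exact one_mem B)
  refine ⟨D, dd, hDD, ?_⟩
  have hw0l : Lim v W 0 (D (w 0)) := fun ε hε => by
    obtain ⟨b, hb, h2⟩ := h.tw.lim ε hε
    refine ⟨D b, hDD.DW b hb, ?_⟩
    rw [← hDD.drv.sub (hBF hw0) (hWF hb)]
    exact hDD.drv.norm _ (sub_mem (hBF hw0) (hWF hb)) _ h2
  exact
  { hk := h.c0
    tl := h.zt
    bf := hBF
    rep := fun c hc hc0 => by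
      rw [h.F_eq] at hc
      exact h.tu.imm.imm c hc hc0
    dir := by
      obtain ⟨DU, g1, g2, g3⟩ := exists_dir h.cv h.tu (le_refl B)
      rw [← h.F_eq] at g1
      refine ⟨DU, g1, fun y hy => ?_⟩
      have g4 := g1.nder
      have g5 : Drv v F fun y => DU 1 y - dd 1 y :=
        { add := fun f hf g hg => by
            show DU 1 (f + g) - dd 1 (f + g) = (DU 1 f - dd 1 f) + (DU 1 g - dd 1 g)
            rw [g4.add f hf g hg, h1.add f hf g hg]
            ring
          mul := fun f hf g hg => by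
            show DU 1 (f * g) - dd 1 (f * g) = f * (DU 1 g - dd 1 g) + g * (DU 1 f - dd 1 f)
            rw [g4.mul f hf g hg, h1.mul f hf g hg]
            ring
          alg := fun c => by
            show DU 1 (algebraMap k Ω c) - dd 1 (algebraMap k Ω c) = 0
            rw [g2 _ (B.algebraMap_mem c), h1.alg, sub_zero]
          norm := fun f hf r hr => by
            have g6 := g4.norm f hf r hr
            rw [sub_zero] at g6
            exact g6.sub (h1.norm f hf r hr) }
      have g6 := g5.zero_cadj hBF (fun a ha => by rw [g2 a ha, d1B a ha, sub_zero]) h.tu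
        (by rw [← h.F_eq]) (by rw [g3, hDD.dd11, sub_self]) (a := y) (by rw [← h.F_eq]; exact hy)
      exact sub_eq_zero.1 g6
    ddx := hDD.drv
    ddw := h0
    ddu := h1
    apw := by
      intro ε hε
      obtain ⟨g, hg, h2⟩ := hDD.dd01 ε hε
      rw [zero_sub] at h2
      set c : Ω := dd 0 (w 1) - g with hc
      refine ⟨fun y => dd 0 y - c * dd 1 y, fun _ => c, ⟨?_, ?_, ?_⟩, fun _ => h2, ?_⟩
      · refine mem_floor h.tu h.F_eq hFc le_rfl (ε := ε) (sub_smul_add h0.add h1.add)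
          (sub_smul_mul h0.mul h1.mul) (fun y hy t ht => ?_) (fun y hy => ?_) ?_
        · refine ((h0.norm y hy t ht).mono (by linarith)).sub ?_
          exact (h2.mul (h1.norm y hy t ht)).mono (by linarith)
        · show dd 0 y - c * dd 1 y ∈ F
          rw [d1B y hy, mul_zero, sub_zero]
          exact hBF (d0B y hy)
        · show dd 0 (w 1) - c * dd 1 (w 1) ∈ F
          rw [hDD.dd11, mul_one, hc, sub_sub_cancel]
          exact hBF hg
      · exact sub_smul_add h0.add h1.add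
      · exact sub_smul_mul h0.mul h1.mul
      · intro y hy
        simp
    apx := by
      intro ε hε
      obtain ⟨g₀, hg₀, h2⟩ := hw0l (ε / 2) (half_pos hε)
      rw [zero_sub] at h2
      set c₀ : Ω := D (w 0) - g₀ with hc₀
      set E' : Ω → Ω := fun y => D y - c₀ * dd 0 y with hE'
      have a' : ∀ y ∈ F, ∀ y' ∈ F, E' (y + y') = E' y + E' y' := sub_smul_add hDD.drv.add h0.add
      have m' : ∀ y ∈ F, ∀ y' ∈ F, E' (y * y') = y * E' y' + y' * E' y :=
        sub_smul_mul hDD.drv.mul h0.mul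
      have n' : ∀ y ∈ F, ∀ t : ℝ, v.Ge t y → v.Ge (t - ε / 2) (E' y) := fun y hy t ht => by
        refine ((hDD.drv.norm y hy t ht).mono (by linarith)).sub ?_
        exact (h2.mul (h0.norm y hy t ht)).mono (by linarith)
      have s' : ∀ y ∈ F, ∀ y' ∈ F, E' (y - y') = E' y - E' y' := fun y hy y' hy' => by
        have h3 := a' (y - y') (sub_mem hy hy') y' hy'
        rw [sub_add_cancel] at h3
        rw [h3]
        ring
      have b' : ∀ y ∈ B, E' y ∈ B := mem_floor h.tw h.B_eq hBc le_rfl (ε := ε / 2)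
        (fun y hy y' hy' => a' y (hBF hy) y' (hBF hy'))
        (fun y hy y' hy' => m' y (hBF hy) y' (hBF hy'))
        (fun y hy t ht => n' y (hBF hy) t ht)
        (fun y hy => by
          show D y - c₀ * dd 0 y ∈ B
          rw [hDD.ddW 0 y hy, mul_zero, sub_zero]
          exact hWB (hDD.DW y hy))
        (by
          show D (w 0) - c₀ * dd 0 (w 0) ∈ B
          rw [hDD.dd00, mul_one, hc₀, sub_sub_cancel]
          exact hWB hg₀)
      obtain ⟨b, hb, h3⟩ := h.tu.lim (ε / 2) (half_pos hε)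
      have h4 : v.Ge (-ε) (E' (w 1) - E' b) := by
        rw [← s' _ hw1 _ (hBF hb)]
        exact (n' _ (sub_mem hw1 (hBF hb)) _ h3).mono (by linarith)
      set c₁ : Ω := E' (w 1) - E' b with hc₁
      refine ⟨fun y => E' y - c₁ * dd 1 y, ![c₀, c₁], ⟨?_, ?_, ?_⟩, fun i => ?_, ?_⟩
      · refine mem_floor h.tu h.F_eq hFc le_rfl (ε := ε) (sub_smul_add a' h1.add)
          (sub_smul_mul m' h1.mul) (fun y hy t ht => ?_) (fun y hy => ?_) ?_
        · refine ((n' y hy t ht).mono (by linarith)).sub ?_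
          exact (h4.mul (h1.norm y hy t ht)).mono (by linarith)
        · show E' y - c₁ * dd 1 y ∈ F
          rw [d1B y hy, mul_zero, sub_zero]
          exact hBF (b' y hy)
        · show E' (w 1) - c₁ * dd 1 (w 1) ∈ F
          rw [hDD.dd11, mul_one, hc₁, sub_sub_cancel]
          exact hBF (b' b hb)
      · exact sub_smul_add a' h1.add
      · exact sub_smul_mul m' h1.mul
      · fin_cases i
        · exact h2.mono (by linarith)
        · exact h4
      · intro y hy
        rw [Fin.sum_univ_two]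
        simp only [hE', Matrix.cons_val_zero, Matrix.cons_val_one]
        ring
    dxx := by
      rw [hDW x h.xW]
      exact hB.Dx
    xF := hWF h.xW
    cls := fun y hy hl hs0 hs1 => TWRB.rowR12v L W B F K w x z a D₀ D dd h hB hDD hDW y hy hl
      fun i => by
        fin_cases i
        exacts [hs0, hs1] }

end Pool.Agent.TWM1
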