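import Pool.Agent.Lib.TWM1.B

/-!
# TANK W, the critical elements of the top floor in row B, part C: the classes of the jets

* `Bx`: the situation; `dx`, `dw`, `du` are the derivations of `F`, `x` the class;
* `Bx.cl`: a critical element with strict derivatives in `z`, `u`, `w` is `κ x`, its `p`-jets are null;
* `Bx.jet_c`: the values `dw` of the jets; `Bx.jet_cl`, `Bx.jet_jet`: the classes of the jets.
-/

set_option autoImplicit false

open Polynomial Finset

namespace Pool.Agent.TWM1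

open Pool.Agent.H15JM (RVal)
open Pool.Agent.LU1 (VPos)
open Pool.Agent.D2 (Ctx0)
open Pool.Agent.TWM
open Pool.Agent.TWLM (HSd Oi exists_ge_of_gt)
open Pool.Agent.TWII (LP PG Nr)
open Pool.Agent.TWCY (Drv)
open Pool.Agent.TWM0

universe u

variable {k Ω : Type u} [Field k] [Field Ω] [Algebra k Ω] {v : RVal Ω}

/-- The situation. -/
structure Bx (p : ℕ) (v : RVal Ω) (B F : IntermediateField k Ω) (z x : Ω)
    (dx dw du : Ω → Ω) : Prop where
  hk : Ctx0 k v
  tl : TL v F z 0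
  bf : B ≤ F
  rep : Rep v B F
  dir : ∃ DU : ℕ → Ω → Ω, Dir v B F 0 DU ∧ ∀ y ∈ F, DU 1 y = du y
  ddx : Drv v F dx
  ddw : Drv v F dw
  ddu : Drv v F du
  apw : Apx v F dw ![du]
  apx : Apx v F dx ![dw, du]
  dxx : dx x = 1
  xF : x ∈ F
  cls : ∀ y ∈ F, LP p v F 0 y → Gt v 0 (dw y) → Gt v 0 (du y) →
    ∃ c : k, PG p v F 0 (y - algebraMap k Ω c * x)

variable {B F : IntermediateField k Ω} {z x : Ω} {dx dw du : Ω → Ω} {f h : Polynomial Ω}
  {d : Ω → Ω} {c : Ω}

section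

variable [IsAlgClosed Ω] {p : ℕ} [hp : Fact p.Prime] [CharP Ω p]

/-- The values of an element modulo null elements. -/
theorem con_base (hz : TL v F z 0) (hd : Drv v F d) (hh : h ∈ PI F) {b : Ω} (hb : b ∈ F)
    (h1 : PG p v (cadj v F z) 0 (h.eval z - b)) (hc : Con v F z d h c) : Gt v 0 (d b - c) := by
  have h2 : PG p v (cadj v F z) 0 ((h - C b).eval z) := by rwa [eval_sub, eval_C]
  obtain ⟨G, hG, μ, hμ, h3⟩ := null_poly p hz h2
  obtain ⟨μ', hμ', h4⟩ := hc
  rw [zero_add] at h3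
  obtain ⟨θ, hθ, h5, h6⟩ := ((near_ge hz (sub_mem (sub_mem hh (C_mem_PI hb)) (pow_mem hG p)) h3).and
    h4).exists hz.lim
  have hhe := eval_mem hh hθ
  have hGe := eval_mem hG hθ
  rw [eval_sub, eval_sub, eval_C, eval_pow] at h5
  have h7 := hd.norm _ (sub_mem (sub_mem hhe hb) (pow_mem hGe p)) _ h5
  rw [drv_sub hd (sub_mem hhe hb) (pow_mem hGe p), drv_sub hd hhe hb, drv_pow_p hd hGe,
    sub_zero] at h7
  have e : d b - c = (d (h.eval θ) - c) - (d (h.eval θ) - d b) := by ring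
  rw [e]
  exact (Gt.of_ge h6 hμ').sub (Gt.of_ge h7 hμ)

/-- A null element of `F` has strict derivatives. -/
theorem drv_null (hd : Drv v F d) {y : Ω} (hy : y ∈ F) (h1 : PG p v F 0 y) : Gt v 0 (d y) := by
  obtain ⟨g, hg, h2⟩ := h1
  obtain ⟨μ, hμ, h3⟩ := exists_ge_of_gt h2
  have h4 := hd.norm _ (sub_mem hy (pow_mem hg p)) _ h3
  rw [drv_sub hd hy (pow_mem hg p), drv_pow_p hd hg, sub_zero] at h4
  exact Gt.of_ge h4 (by linarith)

omit [IsAlgClosed Ω] hp [CharP Ω p] in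
theorem drv_algebraMap_mul (hd : Drv v F d) (c : k) {y : Ω} (hy : y ∈ F)
    (hc : d (algebraMap k Ω c) = 0) : d (algebraMap k Ω c * y) = algebraMap k Ω c * d y := by
  rw [hd.mul _ (F.algebraMap_mem c) _ hy, hc, mul_zero, add_zero]

/-- A derivation kills the constants. -/
theorem drv_const [IsAlgClosed k] (p : ℕ) [hp : Fact p.Prime] [CharP Ω p] (hd : Drv v F d) (a : k) :
    d (algebraMap k Ω a) = 0 := by
  obtain ⟨b, hb⟩ := IsAlgClosed.exists_pow_nat_eq a hp.out.pos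
  rw [← hb, map_pow]
  exact drv_pow_p hd (F.algebraMap_mem b)

namespace Bx

variable (hB : Bx p v B F z x dx dw du)

include hB

omit hp [CharP Ω p] in
/-- The jets have strict `du`. -/
theorem du_jet [hp : Fact p.Prime] [CharP Ω p] (hf : f ∈ PI F)
    (hlp : LP p v (cadj v F z) 0 (f.eval z)) {l : ℕ} (hl : l ≠ 0) :
    Stt v F z du (hasseDeriv l f) := by
  obtain ⟨DU, hdir, hDU⟩ := hB.dir
  have hz := hB.tl
  have h1 := hdir.jets_sd p hz hB.bf hB.rep hf hlp hl
  have h2 := jets_dz hz hf (crit_dz p hz hf hlp) hl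
  obtain ⟨μ, hμ, h3⟩ := exists_ge_of_gt h2
  have hfl : hasseDeriv l f ∈ PI F := hasse_mem_PI hf l
  obtain ⟨h₀, hh₀, h4, h5⟩ := h1.exists_vl hz.lim hdir.nder (-(μ / 2)) (by linarith)
  obtain ⟨μ', hμ', h6⟩ := exists_ge_of_gt h5
  refine ⟨min μ' (μ / 2), lt_min hμ' (by linarith), ?_⟩
  refine ((near_ge hz (DH_mem hdir.nder.toDer hh₀ hfl) h6).and
    ((near_ge hz (derivative_mem hfl) h3).and h4)).mono fun θ hθ h7 => ?_
  obtain ⟨h7, h8, h9⟩ := h7
  rw [DH_eval hdir.nder.toDer hfl hθ] at h7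
  rw [← hDU _ (eval_mem hfl hθ)]
  have e : DU 1 ((hasseDeriv l f).eval θ) = (DU 1 ((hasseDeriv l f).eval θ) -
      (derivative (hasseDeriv l f)).eval θ * (DU 1 θ - h₀)) +
      (derivative (hasseDeriv l f)).eval θ * (DU 1 θ - h₀) := by ring
  rw [e]
  refine (h7.mono ?_).add ((h8.mul h9).mono ?_)
  · have := min_le_left μ' (μ / 2)
    simp only [mul_zero, sub_zero, zero_add]
    exact this
  · have := min_le_right μ' (μ / 2)
    simp only [mul_zero, sub_zero, zero_add] at *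
    linarith

/-- The values `dw` of the jets. -/
theorem dw_const (hf : f ∈ PI F) (hlp : LP p v (cadj v F z) 0 (f.eval z)) :
    ∃ κ : ℕ → k, (∀ l, (∀ i, l ≠ p ^ i) → κ l = 0) ∧
      ∀ l, l ≠ 0 → Con v F z dw (hasseDeriv l f) (algebraMap k Ω (κ l)) := by
  refine jets_const hB.hk hB.tl hB.ddw (ds := ![du]) ?_ hB.apw hf hlp ?_
  · intro i
    fin_cases i
    exact hB.ddu
  · intro l hl i
    fin_cases i
    exact hB.du_jet hf hlp hl

/-- The jets have strict `dw`. -/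
theorem dw_jet (hf : f ∈ PI F) (hlp : LP p v (cadj v F z) 0 (f.eval z))
    (hf' : Gt v 0 ((derivative f).eval z)) (hsu : Stt v F z du f) {l : ℕ} (hl : l ≠ 0) :
    Stt v F z dw (hasseDeriv l f) := by
  refine jets_zero hB.tl hB.ddw (ds := ![du]) ?_ hB.apw hf hlp hf' ?_ ?_ l hl
  · intro i
    fin_cases i
    exact hB.ddu
  · intro i
    fin_cases i
    exact hsu
  · intro l hl i
    fin_cases i
    exact hB.du_jet hf hlp hl

/-- The jets have strict `dx`. -/
theorem dx_jet (hf : f ∈ PI F) (hlp : LP p v (cadj v F z) 0 (f.eval z))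
    (hf' : Gt v 0 ((derivative f).eval z)) (hsu : Stt v F z du f) (hsw : Stt v F z dw f) {l : ℕ}
    (hl : l ≠ 0) : Stt v F z dx (hasseDeriv l f) := by
  refine jets_zero hB.tl hB.ddx (ds := ![dw, du]) ?_ hB.apx hf hlp hf' ?_ ?_ l hl
  · intro i
    fin_cases i
    exacts [hB.ddw, hB.ddu]
  · intro i
    fin_cases i
    exacts [hsw, hsu]
  · intro l hl i
    fin_cases i
    exacts [hB.dw_jet hf hlp hf' hsu hl, hB.du_jet hf hlp hl]

omit hB in
/-- The jets of a critical element have a strict derivative. -/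
theorem dz_jet (hz : TL v F z 0) (hf : f ∈ PI F) (hlp : LP p v (cadj v F z) 0 (f.eval z)) {l : ℕ}
    (hl : l ≠ 0) : Gt v 0 ((derivative (hasseDeriv l f)).eval z) :=
  (jets_dz hz hf (crit_dz p hz hf hlp) hl).mono (by simp)

omit hB in
theorem lp_jet (hz : TL v F z 0) (hf : f ∈ PI F) (hlp : LP p v (cadj v F z) 0 (f.eval z)) {l : ℕ}
    (hpl : p ∣ l) : LP p v (cadj v F z) 0 ((hasseDeriv l f).eval z) := by
  have h1 := LP.jet p hz hf hlp hpl
  rwa [taylor_coeff, mul_zero, sub_zero] at h1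

omit hB in
/-- The base, radius `0`. -/
theorem base0 (hz : TL v F z 0) (hf : f ∈ PI F) (hlp : LP p v (cadj v F z) 0 (f.eval z))
    (hf' : Gt v 0 ((derivative f).eval z))
    (hj : ∀ l, p ∣ l → l ≠ 0 → PG p v (cadj v F z) 0 ((hasseDeriv l f).eval z)) :
    ∃ b ∈ F, PG p v (cadj v F z) 0 (f.eval z - b) ∧ LP p v F 0 b := by
  obtain ⟨b, hb, h1⟩ := PG.base p hz hf (ν := 0) (fun l hl => by
    rcases eq_or_ne l 1 with rfl | h2
    · rw [taylor_coeff, hasseDeriv_one, Nat.cast_one, one_mul, sub_zero]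
      exact hf'
    · have h3 : l ≠ 0 := fun h4 => hl (h4 ▸ dvd_zero p)
      exact LP.jet_prime_gt p hz hf hlp hl (by omega)) (fun l hpl hl0 => by
    rw [taylor_coeff, mul_zero, sub_zero]
    exact hj l hpl hl0)
  refine ⟨b, hb, h1, LP.down hz hb ?_⟩
  have e : b = f.eval z - (f.eval z - b) := by ring
  rw [e]
  exact hlp.sub (LP.of_pg h1)

/-- **The class of a critical element with strict derivatives.** -/
theorem cl [IsAlgClosed k] (hf : f ∈ PI F) (hlp : LP p v (cadj v F z) 0 (f.eval z))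
    (hf' : Gt v 0 ((derivative f).eval z)) (hsu : Stt v F z du f) (hsw : Stt v F z dw f) :
    (∀ l, p ∣ l → l ≠ 0 → PG p v (cadj v F z) 0 ((hasseDeriv l f).eval z)) ∧
      ∃ κ : k, PG p v (cadj v F z) 0 (f.eval z - algebraMap k Ω κ * x) := by
  classical
  have hz := hB.tl
  have hnull : ∀ l, p ∣ l → l ≠ 0 → PG p v (cadj v F z) 0 ((hasseDeriv l f).eval z) := by
    by_contra hcon
    let H : ℕ → Prop := fun l => p ∣ l ∧ l ≠ 0 ∧
      ¬ PG p v (cadj v F z) 0 ((hasseDeriv l f).eval z)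
    have hHb : ∀ l, H l → l ≤ f.natDegree := by
      rintro l ⟨-, -, h3⟩
      by_contra hlt
      apply h3
      rw [hasseDeriv_eq_zero_of_lt_natDegree f l (by omega), eval_zero]
      exact PG.of_gt Gt.zero
    obtain ⟨l₀, hl₀⟩ : ∃ l, H l := by
      by_contra h1
      exact hcon fun l hpl hl0 => by
        by_contra h2
        exact h1 ⟨l, hpl, hl0, h2⟩
    obtain ⟨l, hl, hmax⟩ : ∃ l, H l ∧ ∀ l', l < l' → ¬ H l' := by
      refine ⟨Nat.findGreatest H f.natDegree, Nat.findGreatest_spec (hHb l₀ hl₀) hl₀,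
        fun m' hm' h1 => ?_⟩
      have := Nat.le_findGreatest (hHb m' h1) h1
      omega
    obtain ⟨hpl, hl0, hnl⟩ := hl
    have hfl : hasseDeriv l f ∈ PI F := hasse_mem_PI hf l
    have hgl := lp_jet hz hf hlp hpl
    have h4 : ∀ j : ℕ, p ∣ j → j ≠ 0 →
        PG p v (cadj v F z) 0 ((hasseDeriv j (hasseDeriv l f)).eval z) := by
      intro j hpj hj0
      have h5 : PG p v (cadj v F z) 0 ((hasseDeriv (j + l) f).eval z) := by
        by_contra h6
        exact hmax (j + l) (by omega) ⟨dvd_add hpj hpl, by omega, h6⟩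
      have h6 := TWJ.jet_jet f z l j
      rw [taylor_coeff, taylor_coeff] at h6
      rw [h6]
      exact h5.natCast_mul _
    obtain ⟨b, hb, h5, h6⟩ := base0 hz hfl hgl (dz_jet (p := p) hz hf hlp hl0) h4
    have h7 := con_base hz hB.ddu hfl hb h5 (hB.du_jet hf hlp hl0).con
    have h8 := con_base hz hB.ddw hfl hb h5 (hB.dw_jet hf hlp hf' hsu hl0).con
    have h9 := con_base hz hB.ddx hfl hb h5 (hB.dx_jet hf hlp hf' hsu hsw hl0).con
    rw [sub_zero] at h7 h8 h9
    obtain ⟨κ, h10⟩ := hB.cls b hb h6 h8 h7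
    have hκx : algebraMap k Ω κ * x ∈ F := mul_mem (F.algebraMap_mem κ) hB.xF
    have h11 := drv_null hB.ddx (sub_mem hb hκx) h10
    rw [drv_sub hB.ddx hb hκx, drv_algebraMap_mul hB.ddx κ hB.xF (drv_const p hB.ddx κ),
      hB.dxx, mul_one] at h11
    have h12 : Gt v 0 (algebraMap k Ω κ) := by
      have e : algebraMap k Ω κ = dx b - (dx b - algebraMap k Ω κ) := by ring
      rw [e]
      exact h9.sub h11
    have h13 : κ = 0 := by
      by_contra h14
      have h15 : algebraMap k Ω κ ≠ 0 := (_root_.map_ne_zero _).2 h14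
      have h16 := h12 h15
      rw [hB.hk.triv κ h14] at h16
      exact lt_irrefl _ h16
    rw [h13, map_zero, zero_mul, sub_zero] at h10
    apply hnl
    have e : (hasseDeriv l f).eval z = ((hasseDeriv l f).eval z - b) + b := by ring
    rw [e]
    exact h5.add (PG.up h10)
  refine ⟨hnull, ?_⟩
  obtain ⟨b, hb, h5, h6⟩ := base0 hz hf hlp hf' hnull
  have h7 := con_base hz hB.ddu hf hb h5 hsu.con
  have h8 := con_base hz hB.ddw hf hb h5 hsw.con
  rw [sub_zero] at h7 h8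
  obtain ⟨κ, h10⟩ := hB.cls b hb h6 h8 h7
  refine ⟨κ, ?_⟩
  have e : f.eval z - algebraMap k Ω κ * x = (f.eval z - b) + (b - algebraMap k Ω κ * x) := by ring
  rw [e]
  exact h5.add (PG.up h10)

/-- **The jets with a strict `dw`.** -/
theorem jet_cl [IsAlgClosed k] (hf : f ∈ PI F) (hlp : LP p v (cadj v F z) 0 (f.eval z)) {l : ℕ}
    (hpl : p ∣ l) (hl : l ≠ 0) (hs : Con v F z dw (hasseDeriv l f) 0) :
    (∀ j, p ∣ j → j ≠ 0 → PG p v (cadj v F z) 0 ((hasseDeriv j (hasseDeriv l f)).eval z)) ∧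
      ∃ κ : k, PG p v (cadj v F z) 0 ((hasseDeriv l f).eval z - algebraMap k Ω κ * x) :=
  hB.cl (hasse_mem_PI hf l) (lp_jet hB.tl hf hlp hpl) (dz_jet (p := p) hB.tl hf hlp hl)
    (hB.du_jet hf hlp hl) hs.stt

/-- **The jets of the jets.** -/
theorem jet_jet [IsAlgClosed k] (hf : f ∈ PI F) (hlp : LP p v (cadj v F z) 0 (f.eval z)) {l : ℕ}
    (hpl : p ∣ l) (hl : l ≠ 0) {j : ℕ} (hpj : p ∣ j) (hj : j ≠ 0) :
    (∀ i, p ∣ i → i ≠ 0 → PG p v (cadj v F z) 0
      ((hasseDeriv i (hasseDeriv j (hasseDeriv l f))).eval z)) ∧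
      ∃ κ : k, PG p v (cadj v F z) 0
        ((hasseDeriv j (hasseDeriv l f)).eval z - algebraMap k Ω κ * x) := by
  have h1 := hasse_mem_PI hf l
  have h2 := lp_jet hB.tl hf hlp hpl
  exact hB.jet_cl h1 h2 hpj hj
    (hB.dw_jet h1 h2 (dz_jet (p := p) hB.tl hf hlp hl) (hB.du_jet hf hlp hl) hj).con

omit hB in
/-- The jets of order not a power of `p`, if all the jets of the jets are null. -/
theorem np_of (hpl : ∀ l, p ∣ l → l ≠ 0 → ∀ j, p ∣ j → j ≠ 0 →
      PG p v (cadj v F z) 0 ((hasseDeriv j (hasseDeriv l f)).eval z)) {l : ℕ} (h1 : p ∣ l)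
    (h2 : l ≠ 0) (h3 : ∀ i, l ≠ p ^ i) : PG p v (cadj v F z) 0 ((hasseDeriv l f).eval z) := by
  obtain ⟨i, j, hi, hi0, hj0, h4, h5⟩ := TWII.exists_choose' p h1 h2 h3
  have hpj : p ∣ j := (Nat.dvd_add_right hi).1 (h4 ▸ h1)
  have h6 := hpl j hpj hj0 i hi hi0
  have h7 := TWJ.jet_jet f z j i
  rw [taylor_coeff, taylor_coeff, h4] at h7
  rw [h7] at h6
  rw [h4] at h5
  exact PG.of_natCast_mul h5 h6

end Bx

end

end Pool.Agent.TWM1
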