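import Pool.Agent.Lib.TWRW.OCw
import Pool.Agent.Lib.TWRB.R12A
import Pool.Agent.Lib.TWRB.R12C
import Pool.Agent.Lib.TWCY.E1
import Pool.Agent.Lib.TWRT.RT6

/-!
# CT, j = 1, row B: a critical element `b` of `B = W⟨w 0⟩` with `∂_w b = 1` is `w 0 + b'` + null
-/

set_option autoImplicit false

namespace Pool.Agent.TWM1

open Pool.Agent.H15JM (RVal)
open Pool.Agent.D2 (Ctx0)
open Pool.Agent.TWM
open Pool.Agent.TWII (PG LP)
open Pool.Agent.TWRB
open Pool.Agent.TWCY (Drv)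

universe u

variable {k Ω : Type u} [Field k] [Field Ω] [Algebra k Ω] {p : ℕ} {v : RVal Ω}
  [hp : Fact p.Prime] [CharP Ω p] [IsAlgClosed k] [IsAlgClosed Ω]
  {L : ℕ → IntermediateField k Ω} {W B F K : IntermediateField k Ω} {w : Fin 2 → Ω} {x z a : Ω}

/-- **The critical elements of `B` with `∂_w b = 1`.** -/
theorem exists_wsh (h : HB p v L W B F K w x z a) {d : Ω → Ω} (hd : Drv v F d)
    (hdW : ∀ f ∈ W, d f = 0) (hdw : d (w 0) = 1) {b : Ω} (hb : b ∈ B) (hlp : LP p v B 0 b)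
    (hdb : Gt v 0 (d b - 1)) : ∃ b' ∈ W, PG p v B 0 (b - (w 0 + b')) := by
  have hWF := h.W_le
  have hBF : B ≤ F := by
    rw [h.F_eq]
    exact le_cadj _ _ _
  have hWB : W ≤ B := by
    rw [h.B_eq]
    exact le_cadj _ _ _
  have hw0 : w 0 ∈ B := by
    rw [h.B_eq]
    exact self_mem_cadj _ _ _
  have hH := (TWRT.mov_h0w_ratH (p := p) h.c0 h.mono h.dense h.tw h.mv).1
  have hB := h.B_eq
  obtain ⟨e, he, b₀, hb₀, hge, h1⟩ := TWRW.exists_dec (c := 0) h.tw hH (b := b) (by rw [← hB]; exact hb)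
    (by rw [← hB]; exact hlp)
  rw [← hB] at h1
  obtain ⟨g, hg, h2⟩ := h1
  -- `e = 1 + (> 0)`
  have hyB : b - (e * w 0 + b₀) - g ^ p ∈ B :=
    sub_mem (sub_mem hb (add_mem (mul_mem (hWB he) hw0) (hWB hb₀))) (pow_mem hg p)
  have h3 : Gt v 0 (d (b - (e * w 0 + b₀) - g ^ p)) := by
    obtain ⟨η, hη, h4⟩ := TWLM.exists_ge_of_gt h2
    exact Gt.of_ge (hd.norm _ (hBF hyB) _ h4) (by linarith)
  have e1 : d (b - (e * w 0 + b₀) - g ^ p) = d b - e := by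
    rw [hd.sub (hBF (sub_mem hb (add_mem (mul_mem (hWB he) hw0) (hWB hb₀)))) (pow_mem (hBF hg) p),
      hd.pow_p hp.out.ne_zero (hBF hg), sub_zero,
      hd.sub (hBF hb) (hBF (add_mem (mul_mem (hWB he) hw0) (hWB hb₀))),
      hd.add _ (hBF (mul_mem (hWB he) hw0)) _ (hWF hb₀), hd.mul _ (hWF he) _ (hBF hw0), hdW e he,
      hdW b₀ hb₀, hdw]
    ring
  rw [e1] at h3
  have h4 : Gt v 0 (e - 1) := by
    have e2 : e - 1 = (d b - 1) - (d b - e) := by ring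
    rw [e2]
    exact hdb.sub h3
  obtain ⟨η, hη, h5⟩ := TWLM.exists_ge_of_gt h4
  rw [zero_add] at h5
  obtain ⟨θ, hθ, h6⟩ := h.tw.lim (η / 2) (half_pos hη)
  have h7 : Gt v 0 ((e - 1) * (w 0 - θ)) := Gt.of_ge (h5.mul h6) (by linarith)
  refine ⟨b₀ + (e - 1) * θ, add_mem hb₀ (mul_mem (sub_mem he (one_mem _)) hθ), g, hg, ?_⟩
  have e3 : b - (w 0 + (b₀ + (e - 1) * θ)) - g ^ p = (b - (e * w 0 + b₀) - g ^ p) +
      (e - 1) * (w 0 - θ) := by ring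
  rw [e3]
  exact h2.add h7

end Pool.Agent.TWM1
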